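import Pool.Agent.K3h8.GG.Stm

/-!
# The permutations of the factors of a tensor power and their partial traces (brick CAT)
-/

set_option autoImplicit false
set_option linter.unusedSectionVars false

open CategoryTheory Limits MonoidalCategory
open Pool.Agent.Y112.SR Pool.Agent.Y112.KD Pool.Agent.R905
open Pool.Agent.Y116.MT (tr)
open Equiv (Perm swap)
open Pool.Agent.K3h8.KS (adj adj_last adj_lift isSwap_adj exists_adj exists_rho' perm_induction)

noncomputable section

namespace Pool.Agent.K3h97.GG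

open Pool.Agent.K3h8.GG

universe v u

/-- Reversal of the order of the places. -/
def rv (n : ℕ) : Perm (Fin n) →* Perm (Fin n) :=
  (MulAut.conj (Fin.revPerm : Perm (Fin n))).toMonoidHom

lemma rv_swap {n : ℕ} (a b : Fin n) : rv n (swap a b) = swap (Fin.rev a) (Fin.rev b) := by
  change Fin.revPerm * swap a b * (Fin.revPerm)⁻¹ = _
  rw [Equiv.mul_swap_eq_swap_mul, mul_assoc, mul_inv_cancel, mul_one]
  rfl

lemma up_swap {n : ℕ} (a b : Fin n) : up (swap a b) = swap a.succ b.succ := by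
  ext x
  refine Fin.cases ?_ (fun i => ?_) x
  · rw [up_zero, Equiv.swap_apply_of_ne_of_ne (Fin.succ_ne_zero a).symm (Fin.succ_ne_zero b).symm]
  · rw [up_succ]
    rcases eq_or_ne i a with rfl | ha
    · rw [Equiv.swap_apply_left, Equiv.swap_apply_left]
    · rcases eq_or_ne i b with rfl | hb
      · rw [Equiv.swap_apply_right, Equiv.swap_apply_right]
      · rw [Equiv.swap_apply_of_ne_of_ne ha hb, Equiv.swap_apply_of_ne_of_ne
          (fun h => ha (Fin.succ_injective _ h)) (fun h => hb (Fin.succ_injective _ h))]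

/-- Summation over the permutations by cosets of the stabilizer of the place `0`. -/
lemma sum_perm {V : Type*} [AddCommMonoid V] {n : ℕ} (F : Perm (Fin (n + 1)) → V) :
    ∑ σ, F σ = ∑ τ : Perm (Fin n), (F (up τ) + ∑ i : Fin n, F (up τ * swap 0 i.succ)) := by
  have h1 : ∑ σ, F σ = ∑ σ : Perm (Fin (n + 1)), F σ⁻¹ :=
    (Equiv.sum_comp (Equiv.inv (Perm (Fin (n + 1)))) F).symm
  have h2 : ∑ σ : Perm (Fin (n + 1)), F σ⁻¹ =
      ∑ x : Fin (n + 1) × Perm (Fin n), F (Equiv.Perm.decomposeFin.symm x)⁻¹ :=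
    (Equiv.sum_comp Equiv.Perm.decomposeFin.symm fun σ : Perm (Fin (n + 1)) => F σ⁻¹).symm
  have h3 : ∀ (j : Fin (n + 1)) (τ : Perm (Fin n)),
      (Equiv.Perm.decomposeFin.symm (j, τ))⁻¹ = up τ⁻¹ * swap 0 j := by
    intro j τ
    have h4 : Equiv.Perm.decomposeFin.symm (j, τ) = swap 0 j * up τ := by
      ext x
      refine Fin.cases ?_ (fun i => ?_) x
      · rw [Equiv.Perm.mul_apply, up_zero]
        simp
      · rw [Equiv.Perm.mul_apply, up_succ]
        simp
    rw [h4, mul_inv_rev, ← map_inv, Equiv.swap_inv]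
  rw [h1, h2, Fintype.sum_prod_type, Finset.sum_comm]
  rw [← Equiv.sum_comp (Equiv.inv (Perm (Fin n)))
    fun τ => (F (up τ) + ∑ i : Fin n, F (up τ * swap 0 i.succ))]
  refine Finset.sum_congr rfl fun τ _ => ?_
  rw [Fin.sum_univ_succ]
  simp only [h3, Equiv.inv_apply, Equiv.swap_self]
  congr 1

section

variable (C : Type u) [Category.{v} C] [Preadditive C] [Linear ℚ C] [MonoidalCategory C]
  [MonoidalPreadditive C] [MonoidalLinear ℚ C] [SymmetricCategory C] [RightRigidCategory C]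

/-- brick CAT -/
theorem t_CAT : S_CAT C := by
  intro X t ht
  choose ρ₀ hρ₀ using exists_rho' X
  obtain ⟨ρ, hρ⟩ : ∃ ρ : ∀ n, Perm (Fin n) →* End (tp X n), ∀ n σ, ρ n σ = ρ₀ n (rv n σ) :=
    ⟨fun n => (ρ₀ n).comp (rv n), fun _ _ => rfl⟩
  -- the neighbours
  have hs : ∀ (n k : ℕ) (hk : k + 1 < n),
      ρ n (swap ⟨k, by omega⟩ ⟨k + 1, hk⟩) = adj X n (n - (k + 1 + 1)) := by
    intro n k hk
    have e1 : Fin.rev (⟨k, by omega⟩ : Fin n) = ⟨n - (k + 1 + 1) + 1, by omega⟩ := by
      ext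
      rw [Fin.val_rev]
      change n - (k + 1) = n - (k + 1 + 1) + 1
      omega
    have e2 : Fin.rev (⟨k + 1, hk⟩ : Fin n) = ⟨n - (k + 1 + 1), by omega⟩ := by
      ext
      rw [Fin.val_rev]
    rw [hρ, rv_swap, e1, e2, Equiv.swap_comm]
    exact hρ₀ n (n - (k + 1 + 1)) (by omega)
  -- compatibility
  have hup : ∀ (n : ℕ) (τ : Perm (Fin n)),
      (ρ (n + 1) (up τ) : tp X n ⊗ X ⟶ tp X n ⊗ X) = (ρ n τ : tp X n ⟶ tp X n) ▷ X := by
    intro n
    refine perm_induction ?_ ?_ ?_
    · rw [map_one, map_one, map_one, End.one_def, End.one_def, id_whiskerRight]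
    · intro g h hg hh
      rw [map_mul, map_mul, map_mul, End.mul_def, End.mul_def, comp_whiskerRight, hg, hh]
    · intro i hi
      rw [up_swap, hs n i hi]
      have e1 := hs (n + 1) (i + 1) (by omega)
      have e2 : n + 1 - (i + 1 + 1 + 1) = n - (i + 1 + 1) := by omega
      rw [e2] at e1
      rw [← adj_lift X (show n - (i + 1 + 1) + 1 < n by omega)]
      exact e1
  refine ⟨ρ, ?_, ?_, ?_⟩
  · intro n
    have h1 : Submonoid.closure {s : End (tp X n) | IsSwap X n s} = MonoidHom.mrange (ρ n) := by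
      apply le_antisymm
      · rw [Submonoid.closure_le]
        intro s hs'
        obtain ⟨i, hi, rfl⟩ := exists_adj X hs'
        refine ⟨swap ⟨n - (i + 1 + 1), by omega⟩ ⟨n - (i + 1 + 1) + 1, by omega⟩, ?_⟩
        rw [hs n (n - (i + 1 + 1)) (by omega)]
        congr 1
        omega
      · rintro _ ⟨σ, rfl⟩
        revert σ
        refine perm_induction ?_ ?_ ?_
        · rw [map_one]
          exact Submonoid.one_mem _
        · intro g h hg hh
          rw [map_mul]
          exact Submonoid.mul_mem _ hg hh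
        · intro i hi
          rw [hs n i hi]
          exact Submonoid.subset_closure (isSwap_adj X (by omega))
    rw [permAlg, Algebra.adjoin_eq_span, h1]
    rfl
  · intro n u
    have h1 : ∀ τ : Perm (Fin n), ptr (ρ (n + 1) (up τ) : tp X n ⊗ X ⟶ tp X n ⊗ X) =
        t • (ρ n τ : tp X n ⟶ tp X n) := by
      intro τ
      rw [hup]
      have := ptr_tensor (ρ n τ : tp X n ⟶ tp X n) (𝟙 X) t ht
      rwa [tensorHom_id] at this
    have h2 : ∀ i : Fin n, ptr (ρ (n + 1) (swap 0 i.succ) : tp X n ⊗ X ⟶ tp X n ⊗ X) = 𝟙 _ := by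
      intro i
      obtain ⟨m, rfl⟩ : ∃ m, n = m + 1 := ⟨n - 1, by have := i.2; omega⟩
      have e1 : swap 0 i.succ = up (swap 0 i) * swap 0 (Fin.succ 0) * up (swap 0 i)⁻¹ := by
        rw [map_inv, Equiv.mul_swap_eq_swap_mul, mul_inv_cancel_right, up_zero, up_succ,
          Equiv.swap_apply_left]
      have e2 : (ρ (m + 2) (swap 0 (Fin.succ 0)) : tp X (m + 1) ⊗ X ⟶ tp X (m + 1) ⊗ X) =
          sw (tp X m) X := by
        have e3 := hs (m + 2) 0 (by omega)
        rw [← adj_last X m]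
        exact e3
      rw [e1, map_mul, map_mul, End.mul_def, End.mul_def, hup, e2, hup, ptr_comp, ptr_sw,
        Category.id_comp, ← End.mul_def, ← map_mul, mul_inv_cancel, map_one, End.one_def]
    have h3 : ∀ (τ : Perm (Fin n)) (i : Fin n),
        ptr (ρ (n + 1) (up τ * swap 0 i.succ) : tp X n ⊗ X ⟶ tp X n ⊗ X) =
          (ρ n τ : tp X n ⟶ tp X n) := by
      intro τ i
      rw [map_mul, End.mul_def, hup, ptr_comp_right, h2, Category.id_comp]
    change ptrL (tp X n) X (∑ σ, u σ • (ρ (n + 1) σ : tp X n ⊗ X ⟶ tp X n ⊗ X)) =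
      ∑ τ, PTr t u τ • (ρ n τ : tp X n ⟶ tp X n)
    rw [map_sum, sum_perm]
    refine Finset.sum_congr rfl fun τ _ => ?_
    simp only [map_smul]
    change u (up τ) • ptr (ρ (n + 1) (up τ) : tp X n ⊗ X ⟶ tp X n ⊗ X) +
      ∑ i : Fin n, u (up τ * swap 0 i.succ) •
        ptr (ρ (n + 1) (up τ * swap 0 i.succ) : tp X n ⊗ X ⟶ tp X n ⊗ X) = _
    simp only [h1, h3]
    rw [← Finset.sum_smul, PTr, add_smul, smul_smul, mul_comm t]
  · intro n i
    have e1 := hs (n + 1) i.val (by have := i.2; omega)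
    have e2 : ρ (n + 1) (swap i.castSucc i.succ) = adj X (n + 1) (n + 1 - (i.val + 1 + 1)) := e1
    rw [e2]
    exact isSwap_adj X (by have := i.2; omega)

end

end Pool.Agent.K3h97.GG
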